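import Pool.Agent.Run7.h909.SQ.Pres

set_option autoImplicit false

/-!
# Groups acting on square complexes of nonpositive curvature: consequences

The theorems are those of helper909 (`MP_2a0850_gt.SquareComplexes`); here they are stated with any property
`P` of groups that follows from membership in the class `C`.
-/

namespace Pool.Agent.Run7.h1.SQ

open Pool.Agent.Y110.FJ (ClosedE)
open Pool.Agent.R684.FP (FbC)
open Run7.h909.TD Run7.h909.SQ
open Monoid (CoprodI)

/-- `Γ` has no triangles -/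
def NoTriangle {W : Type} (Γ : SimpleGraph W) : Prop :=
  ∀ u v w, Γ.Adj u v → Γ.Adj v w → Γ.Adj w u → False

/-- some homomorphism to a group in `C` kills no nontrivial element of `S` -/
def Detected (C : ∀ (G : Type) [Group G], Prop) {G : Type} [Group G] (S : Set G) : Prop :=
  ∃ (P : Type) (_ : Group P) (f : G →* P), C P ∧ ∀ g ∈ S, f g = 1 → g = 1

/-- (1) actions on square complexes -/
def Actions (C P : ∀ (G : Type) [Group G], Prop) : Prop :=
  ∀ (G V : Type) [Group G] [MulAction G V] (T : SimpleGraph V) (F : Set (ℤ → V)),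
    Cub T F → SC T F → Ac G T F →
    (∀ x y : V, InCell T F x y → Detected C {g : G | Prs g x y}) → C G ∧ P G

/-- (2) free actions of a normal subgroup -/
def Extensions (C P : ∀ (G : Type) [Group G], Prop) : Prop :=
  ∀ (G V : Type) [Group G] [MulAction G V] (T : SimpleGraph V) (F : Set (ℤ → V))
    (N : Subgroup G) [N.Normal], Cub T F → SC T F → Ac G T F → C (G ⧸ N) →
    (∀ x y : V, InCell T F x y → ∀ g ∈ N, Prs g x y → g = 1) → C G ∧ P G

/-- (3) colimits over triangle-free graphs -/
def Colimits (C P : ∀ (G : Type) [Group G], Prop) : Prop :=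
  ∀ (K W : Type) [Group K] [Nonempty W] (Γ : SimpleGraph W) (A : W → Subgroup K)
    (D : Subgroup K), NoTriangle Γ → (∀ v, D ≤ A v) → (∀ v w, Γ.Adj v w → A v ⊓ A w = D) →
    IsCol Γ A D → (∀ v, Detected C ((A v : Subgroup K) : Set K)) →
    (∀ v w, Γ.Adj v w → Detected C ((A v ⊔ A w : Subgroup K) : Set K)) → C K ∧ P K

/-- (4) free products with relators along the edges of a triangle-free graph -/
def Relators (C P : ∀ (G : Type) [Group G], Prop) : Prop :=
  ∀ (W : Type) (Γ : SimpleGraph W) (G : W → Type) [∀ v, Group (G v)] (R : Set (CoprodI G)),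
    NoTriangle Γ → Rels Γ R →
    (C (Qt R) ↔ (∀ v, C (G v)) ∧ ∀ v w, Γ.Adj v w → C ↥(Fa R v ⊔ Fa R w)) ∧
    (C (Qt R) → P (Qt R))

theorem all {C : ∀ (G : Type) [Group G], Prop} (hC : ClosedE C) (hF : FbC C) (hcat : CatC C)
    {P : ∀ (G : Type) [Group G], Prop} (hP : ∀ (G : Type) [Group G], C G → P G) :
    Actions C P ∧ Extensions C P ∧ Colimits C P ∧ Relators C P := by
  refine ⟨?_, ?_, ?_, ?_⟩
  · intro G V _ _ T F h1 h2 h3 h
    have := squares hC hF hcat h1 h2 h3 h
    exact ⟨this, hP G this⟩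
  · intro G V _ _ T F N _ h1 h2 h3 h4 h
    have := squares_ext hC hF hcat h1 h2 h3 N h4 h
    exact ⟨this, hP G this⟩
  · intro K W _ _ Γ A D h1 h2 h3 h4 h5 h6
    have := col_mem hC hF hcat h4 h1 h2 h3 h5 fun v w hvw => h6 v w hvw
    exact ⟨this, hP K this⟩
  · intro W Γ G _ R h1 h2
    exact ⟨pres_mem hC hF hcat h1 h2, hP _⟩

end Pool.Agent.Run7.h1.SQ
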